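import Pool.Agent.helper29.PQ.Spec

/-!
# Row pq:A3, cells
-/

namespace Pool.Agent.helper29.PQ

open Finset

namespace A3aux

theorem pi_le (q : ℕ) : Nat.primeCounting q ≤ q := by
  have h : Nat.count Nat.Prime (1 + q) = Nat.count Nat.Prime 1 +
      Nat.count (fun k => Nat.Prime (1 + k)) q := Nat.count_add _ _ _
  have h1 : Nat.count Nat.Prime 1 = 0 := by
    rw [Nat.count_succ, Nat.count_zero]
    simp [Nat.not_prime_zero]
  have h2 := Nat.count_le (p := fun k => Nat.Prime (1 + k)) (n := q)
  have h3 : Nat.primeCounting q = Nat.count Nat.Prime (q + 1) := rfl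
  rw [h3, Nat.add_comm q 1, h, h1]
  omega

theorem pi_lt {q q' : ℕ} (hq' : q'.Prime) (h : q < q') :
    Nat.primeCounting q + 1 ≤ Nat.primeCounting q' := by
  have h1 : Nat.primeCounting q = Nat.count Nat.Prime (q + 1) := rfl
  have h2 : Nat.primeCounting q' = Nat.count Nat.Prime (q' + 1) := rfl
  have h3 : Nat.count Nat.Prime (q' + 1) = Nat.count Nat.Prime q' + 1 := by
    rw [Nat.count_succ, if_pos hq']
  rw [h1, h2, h3]
  have := Nat.count_monotone Nat.Prime (show q + 1 ≤ q' by omega)
  omega

theorem pi_gap {q q' : ℕ} (hq : q.Prime) (hq2 : q ≠ 2) (h : q < q') :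
    Nat.primeCounting q' + q + 1 ≤ Nat.primeCounting q + q' := by
  have h1 : Nat.primeCounting q = Nat.count Nat.Prime (q + 1) := rfl
  have h2 : Nat.primeCounting q' = Nat.count Nat.Prime (q' + 1) := rfl
  have hodd : ¬ (q + 1).Prime := by
    intro hp
    have ho := hq.odd_of_ne_two hq2
    have h3 := hq.two_le
    have h4 := hp.even_iff.1 (by
      rcases ho with ⟨k, hk⟩
      exact ⟨k + 1, by omega⟩)
    omega
  have h3 : Nat.count Nat.Prime (q + 1 + 1) = Nat.count Nat.Prime (q + 1) := by
    rw [Nat.count_succ, if_neg hodd, Nat.add_zero]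
  have h4 : q' + 1 = (q + 1 + 1) + (q' - q - 1) := by omega
  have h5 : Nat.count Nat.Prime (q' + 1) = Nat.count Nat.Prime (q + 1 + 1) +
      Nat.count (fun k => Nat.Prime (q + 1 + 1 + k)) (q' - q - 1) := by
    rw [h4]
    exact Nat.count_add _ _ _
  have h6 := Nat.count_le (p := fun k => Nat.Prime (q + 1 + 1 + k)) (n := q' - q - 1)
  rw [h1, h2, h5, h3]
  omega

theorem sub_lt_of_div_eq {a b H : ℕ} (hH : 0 < H) (hab : a ≤ b) (h : a / H = b / H) :
    b - a < H := by
  have h1 := Nat.div_add_mod a H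
  have h2 := Nat.div_add_mod b H
  have h3 := Nat.mod_lt b hH
  rw [← h] at h2
  omega

end A3aux

open A3aux in
theorem A3 : A3_stmt := by
  classical
  intro Y H I d c S hH hI hS
  let σ : ℕ → ℕ := fun q => q / H + Nat.primeCounting q / I
  let S' : Finset ℕ := {q ∈ S | ∃ q' ∈ S, q < q' ∧ σ q = σ q'}
  let S'' : Finset ℕ := {q ∈ S | ¬ ∃ q' ∈ S, q < q' ∧ σ q = σ q'}
  have hcard : #S = #S' + #S'' := (card_filter_add_card_filter_not _).symm
  have h1 : #S'' ≤ Y / H + Nat.primeCounting Y / I + 1 := by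
    have hle : #S'' ≤ #(range (Y / H + Nat.primeCounting Y / I + 1)) := by
      apply card_le_card_of_injOn σ
      · intro q hq
        have hq1 : q ∈ S := (mem_filter.1 hq).1
        have hqY := (hS q hq1).2.2.1
        have h3 : q / H ≤ Y / H := Nat.div_le_div_right hqY
        have h4 : Nat.primeCounting q / I ≤ Nat.primeCounting Y / I :=
          Nat.div_le_div_right (Nat.monotone_primeCounting hqY)
        simp only [coe_range, Set.mem_Iio, σ]
        omega
      · intro a ha b hb hab
        have ha' := mem_filter.1 (mem_coe.1 ha)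
        have hb' := mem_filter.1 (mem_coe.1 hb)
        rcases lt_trichotomy a b with h | h | h
        · exact absurd ⟨b, hb'.1, h, hab⟩ ha'.2
        · exact h
        · exact absurd ⟨a, ha'.1, h, hab.symm⟩ hb'.2
    rwa [card_range] at hle
  have h2 : #S' ≤ ∑ i ∈ Ioo 0 I, ∑ g ∈ Ioo i H with d ∣ g - i,
      #{q ∈ Ioc 0 Y | q.Prime ∧ (q + g).Prime} := by
    have hsub : S' ⊆ (Ioo 0 I).biUnion fun i => ({g ∈ Ioo i H | d ∣ g - i}).biUnion fun g =>
        {q ∈ Ioc 0 Y | q.Prime ∧ (q + g).Prime} := by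
      intro q hq
      obtain ⟨hqS, q', hq'S, hlt, hσ⟩ := mem_filter.1 hq
      obtain ⟨hp, hne, hY, hmod⟩ := hS q hqS
      obtain ⟨hp', hne', hY', hmod'⟩ := hS q' hq'S
      have h3 : q / H ≤ q' / H := Nat.div_le_div_right hlt.le
      have h4 : Nat.primeCounting q / I ≤ Nat.primeCounting q' / I :=
        Nat.div_le_div_right (Nat.monotone_primeCounting hlt.le)
      simp only [σ] at hσ
      have h5 : q / H = q' / H := by omega
      have h6 : Nat.primeCounting q / I = Nat.primeCounting q' / I := by omega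
      have h7 := sub_lt_of_div_eq hH hlt.le h5
      have h8 := sub_lt_of_div_eq hI (Nat.monotone_primeCounting hlt.le) h6
      have h9 := pi_lt hp' hlt
      have h10 := pi_gap hp hne hlt
      have h11 := pi_le q
      have h12 := pi_le q'
      have hdvd : d ∣ (q' - q) - (Nat.primeCounting q' - Nat.primeCounting q) := by
        have h13 : aq q ≡ aq q' [MOD d] := by
          unfold Nat.ModEq
          rw [hmod, hmod']
        have h14 : aq q ≤ aq q' := by
          unfold aq
          omega
        have h15 := (Nat.modEq_iff_dvd' h14).1 h13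
        have h16 : aq q' - aq q = (q' - q) - (Nat.primeCounting q' - Nat.primeCounting q) := by
          unfold aq
          omega
        rwa [h16] at h15
      rw [mem_biUnion]
      refine ⟨Nat.primeCounting q' - Nat.primeCounting q, mem_Ioo.2 ⟨by omega, h8⟩, ?_⟩
      rw [mem_biUnion]
      refine ⟨q' - q, mem_filter.2 ⟨mem_Ioo.2 ⟨by omega, h7⟩, hdvd⟩, ?_⟩
      refine mem_filter.2 ⟨mem_Ioc.2 ⟨hp.pos, hY⟩, hp, ?_⟩
      rw [Nat.add_sub_cancel' hlt.le]
      exact hp'
    refine (card_le_card hsub).trans (card_biUnion_le.trans ?_)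
    exact sum_le_sum fun i _ => card_biUnion_le
  omega

end Pool.Agent.helper29.PQ
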